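import Pool.Agent.H317.GI.Stm

/-!
# GI TRC (for helper317): triangular matrices
-/

set_option autoImplicit false

namespace Pool.Agent.H772.GI

open Matrix Pool.Agent.H317.GR Pool.Agent.H317.GH Pool.Agent.H317.GI

variable {K : Type} [Field K]

/-- upper triangular matrices -/
def UT (X : Matrix (Fin 3) (Fin 3) K) : Prop := ∀ i j : Fin 3, j < i → X i j = 0

theorem ut_iff {X : Matrix (Fin 3) (Fin 3) K} :
    UT X ↔ X 1 0 = 0 ∧ X 2 0 = 0 ∧ X 2 1 = 0 := by
  constructor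
  · intro h
    exact ⟨h 1 0 (by decide), h 2 0 (by decide), h 2 1 (by decide)⟩
  · rintro ⟨h1, h2, h3⟩ i j hij
    fin_cases i <;> fin_cases j <;>
      first
      | exact h1
      | exact h2
      | exact h3
      | exact absurd hij (by decide)

theorem mul3 (X Y : Matrix (Fin 3) (Fin 3) K) (i j : Fin 3) :
    (X * Y) i j = X i 0 * Y 0 j + X i 1 * Y 1 j + X i 2 * Y 2 j := by
  rw [Matrix.mul_apply, Fin.sum_univ_three]

theorem ut_mul {X Y : Matrix (Fin 3) (Fin 3) K} (hX : UT X) (hY : UT Y) : UT (X * Y) := by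
  obtain ⟨x1, x2, x3⟩ := ut_iff.1 hX
  obtain ⟨y1, y2, y3⟩ := ut_iff.1 hY
  refine ut_iff.2 ⟨?_, ?_, ?_⟩
  · rw [mul3, x1, y1, y2]
    ring
  · rw [mul3, x2, x3, y2]
    ring
  · rw [mul3, x2, x3, y3]
    ring

theorem ut_diag {X Y : Matrix (Fin 3) (Fin 3) K} (hX : UT X) (hY : UT Y) (i : Fin 3) :
    (X * Y) i i = X i i * Y i i := by
  obtain ⟨x1, x2, x3⟩ := ut_iff.1 hX
  obtain ⟨y1, y2, y3⟩ := ut_iff.1 hY
  have h : ∀ i : Fin 3, i = 0 ∨ i = 1 ∨ i = 2 := by decide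
  rcases h i with rfl | rfl | rfl
  · rw [mul3, y1, y2]
    ring
  · rw [mul3, x1, y3]
    ring
  · rw [mul3, x2, x3]
    ring

theorem inv_mul' (X : GL (Fin 3) K) : (X⁻¹).val * X.val = 1 := by
  rw [← Units.val_mul, inv_mul_cancel, Units.val_one]

theorem mul_inv' (X : GL (Fin 3) K) : X.val * (X⁻¹).val = 1 := by
  rw [← Units.val_mul, mul_inv_cancel, Units.val_one]

theorem ut_inv {X : GL (Fin 3) K} (hX : UT X.val) : UT (X⁻¹).val := by
  obtain ⟨x1, x2, x3⟩ := ut_iff.1 hX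
  have m : ∀ i j, (X⁻¹).val i 0 * X.val 0 j + (X⁻¹).val i 1 * X.val 1 j +
      (X⁻¹).val i 2 * X.val 2 j = (1 : Matrix (Fin 3) (Fin 3) K) i j := fun i j => by
    rw [← inv_mul' X, mul3]
  have m00 := m 0 0
  have m10 := m 1 0
  have m20 := m 2 0
  have m11 := m 1 1
  have m21 := m 2 1
  rw [x1, x2, Matrix.one_apply_eq] at m00
  rw [x1, x2, Matrix.one_apply_ne (by decide)] at m10
  rw [x1, x2, Matrix.one_apply_ne (by decide)] at m20
  rw [x3, Matrix.one_apply_eq] at m11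
  rw [x3, Matrix.one_apply_ne (by decide)] at m21
  have h0 : X.val 0 0 ≠ 0 := by
    intro h
    rw [h] at m00
    apply one_ne_zero (α := K)
    rw [← m00]
    ring
  have y10 : (X⁻¹).val 1 0 = 0 := by
    have : (X⁻¹).val 1 0 * X.val 0 0 = 0 := by linear_combination m10
    exact (mul_eq_zero.mp this).resolve_right h0
  have y20 : (X⁻¹).val 2 0 = 0 := by
    have : (X⁻¹).val 2 0 * X.val 0 0 = 0 := by linear_combination m20
    exact (mul_eq_zero.mp this).resolve_right h0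
  rw [y10] at m11
  rw [y20] at m21
  have h1 : X.val 1 1 ≠ 0 := by
    intro h
    rw [h] at m11
    apply one_ne_zero (α := K)
    rw [← m11]
    ring
  have y21 : (X⁻¹).val 2 1 = 0 := by
    have : (X⁻¹).val 2 1 * X.val 1 1 = 0 := by linear_combination m21
    exact (mul_eq_zero.mp this).resolve_right h1
  exact ut_iff.2 ⟨y10, y20, y21⟩

theorem inv_diag {X : GL (Fin 3) K} (hX : UT X.val) (i : Fin 3) :
    X.val i i * (X⁻¹).val i i = 1 := by
  rw [← ut_diag hX (ut_inv hX), mul_inv', Matrix.one_apply_eq]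

theorem conj_cube (P X : GL (Fin 3) K) :
    (X.val - 1) ^ 3 = 0 ↔ ((P⁻¹ * X * P).val - 1) ^ 3 = 0 := by
  have h1 : (P⁻¹ * X * P).val - 1 = (P⁻¹).val * (X.val - 1) * P.val := by
    rw [Units.val_mul, Units.val_mul, mul_sub, sub_mul, mul_one, inv_mul']
  have h2 : ∀ Y : Matrix (Fin 3) (Fin 3) K, P.val * ((P⁻¹).val * Y) = Y := fun Y => by
    rw [← mul_assoc, mul_inv', one_mul]
  have h3 : ((P⁻¹).val * (X.val - 1) * P.val) ^ 3 = (P⁻¹).val * (X.val - 1) ^ 3 * P.val := by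
    simp only [pow_succ, pow_zero, one_mul, mul_assoc, h2]
  rw [h1, h3]
  constructor
  · intro h
    rw [h, mul_zero, zero_mul]
  · intro h
    have h4 : P.val * ((P⁻¹).val * (X.val - 1) ^ 3 * P.val) * (P⁻¹).val = (X.val - 1) ^ 3 := by
      rw [mul_assoc (P⁻¹).val, h2, mul_assoc, mul_inv', mul_one]
    rw [← h4, h, mul_zero, zero_mul]

theorem cube_iff {Y : Matrix (Fin 3) (Fin 3) K} (hY : UT Y) :
    (Y - 1) ^ 3 = 0 ↔ ∀ i, Y i i = 1 := by
  obtain ⟨N, hN⟩ : ∃ N, N = Y - 1 := ⟨_, rfl⟩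
  have hNU : UT N := by
    intro i j hij
    rw [hN, Matrix.sub_apply, hY i j hij, Matrix.one_apply_ne hij.ne', sub_zero]
  have hd : ∀ i, N i i = Y i i - 1 := fun i => by
    rw [hN, Matrix.sub_apply, Matrix.one_apply_eq]
  rw [← hN, pow_three]
  constructor
  · intro h i
    have h1 := ut_diag hNU (ut_mul hNU hNU) i
    rw [ut_diag hNU hNU, h, Matrix.zero_apply] at h1
    have h2 : N i i = 0 := by
      rcases mul_eq_zero.mp h1.symm with h3 | h3
      · exact h3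
      · exact mul_self_eq_zero.mp h3
    rw [hd] at h2
    exact sub_eq_zero.mp h2
  · intro h
    obtain ⟨n1, n2, n3⟩ := ut_iff.1 hNU
    have n0 : ∀ i, N i i = 0 := fun i => by
      rw [hd, h i, sub_self]
    have a := n0 0
    have b := n0 1
    have c := n0 2
    have h3 : ∀ i : Fin 3, i = 0 ∨ i = 1 ∨ i = 2 := by decide
    have r2 : ∀ j, N 2 j = 0 := fun j => by
      rcases h3 j with rfl | rfl | rfl
      · exact n2
      · exact n3
      · exact c
    ext i j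
    rw [mul3, mul3, mul3, mul3, Matrix.zero_apply, n1, n2, n3, a, b, c]
    rcases h3 i with rfl | rfl | rfl
    · rw [a, r2 j]
      ring
    · rw [n1, b]
      ring
    · rw [n2, n3, c]
      ring

theorem trc : S_TRC := by
  intro K _ P
  have h2 : ∀ A : GL (Fin 3) K, (∀ i j : Fin 3, j < i → (P⁻¹ * A * P).val i j = 0) →
      ((A.val - 1) ^ 3 = 0 ↔ ∀ i : Fin 3, (P⁻¹ * A * P).val i i = 1) := fun A hA =>
    (conj_cube P A).trans (cube_iff hA)
  refine ⟨fun A B hA hB => ?_, h2, fun A B hA hB i => ?_⟩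
  · obtain ⟨A', hA'⟩ : ∃ A' : GL (Fin 3) K, A' = P⁻¹ * A * P := ⟨_, rfl⟩
    obtain ⟨B', hB'⟩ : ∃ B' : GL (Fin 3) K, B' = P⁻¹ * B * P := ⟨_, rfl⟩
    rw [← hA'] at hA
    rw [← hB'] at hB
    have e : P⁻¹ * (A * B * A⁻¹ * B⁻¹) * P = A' * B' * A'⁻¹ * B'⁻¹ := by
      rw [hA', hB']
      group
    have hAi := ut_inv hA
    have hBi := ut_inv hB
    have u1 : UT (A' * B' * A'⁻¹).val := by
      rw [Units.val_mul, Units.val_mul]
      exact ut_mul (ut_mul hA hB) hAi
    have u2 : UT (A' * B' * A'⁻¹ * B'⁻¹).val := by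
      rw [Units.val_mul]
      exact ut_mul u1 hBi
    rw [conj_cube P, e, cube_iff u2]
    intro i
    rw [Units.val_mul, ut_diag u1 hBi, Units.val_mul, Units.val_mul,
      ut_diag (ut_mul hA hB) hAi, ut_diag hA hB]
    have d1 := inv_diag hA i
    have d2 := inv_diag hB i
    calc A'.val i i * B'.val i i * (A'⁻¹).val i i * (B'⁻¹).val i i
        = (A'.val i i * (A'⁻¹).val i i) * (B'.val i i * (B'⁻¹).val i i) := by ring
      _ = 1 := by rw [d1, d2, one_mul]
  · have e : P⁻¹ * (A * B) * P = (P⁻¹ * A * P) * (P⁻¹ * B * P) := by group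
    rw [e, Units.val_mul]
    exact ut_diag hA hB i

end Pool.Agent.H772.GI
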